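import Pool.Agent.Helper64.FL.StG

/-! Module B3 of the full list for MP_866009_co: no three pairwise conflicting components. -/

set_option autoImplicit false

namespace Pool.Agent.Helper64.FL

open Pool.Agent.Helper64.CT Pool.Agent.Helper64.DT
open Pool.Agent.Helper64.HG (Ovl Model Circ IC HellyCircle ChordModel)

private theorem b3_symm {V : Type} {G : SimpleGraph V} {x y z : V} (h : Comp G x y z) :
    Comp G x z y := ⟨h.2.1, h.1, h.2.2.symm⟩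

private theorem b3_trans {V : Type} {G : SimpleGraph V} {x y z w : V} (h : Comp G x y z)
    (h' : Comp G x z w) : Comp G x y w := ⟨h.1, h'.2.1, h.2.2.trans h'.2.2⟩

private theorem b3_att {V : Type} {G : SimpleGraph V} {x y z n : V} (h : Comp G x y z)
    (hn : n ∈ Att G x y) : n ∈ Att G x z := by
  obtain ⟨h1, u, h2, h3⟩ := hn
  exact ⟨h1, u, b3_trans (b3_symm h) h2, h3⟩

private theorem b3_conf {V : Type} {G : SimpleGraph V} {x y z : V} (h : Conf G x y z) :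
    Conf G x z y := ⟨fun hc => h.1 (b3_symm hc), h.2.2, h.2.1⟩

private theorem b3_com {V : Type} {G : SimpleGraph V} {x y z : V} (h : Conf G x y z) :
    ∃ n, n ∈ Att G x y ∧ n ∈ Att G x z := by
  obtain ⟨u, hu, ⟨n, hn, hun⟩, _⟩ := h.2.1
  exact ⟨n, ⟨hn.1, u, hu, hun.symm⟩, hn⟩

private theorem b3_key (h7 : ST_IIA) (h8 : ST_IIB) {V : Type} {G : SimpleGraph V}
    (hN : NoP G preBs) {x y1 y2 y3 n : V} (c12 : Conf G x y1 y2) (c13 : Conf G x y1 y3)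
    (c23 : Conf G x y2 y3) (n1 : n ∈ Att G x y1) (n2 : n ∈ Att G x y2) (n3 : n ∈ Att G x y3) :
    ∃ t, Comp G x y1 t ∧ G.Adj n t ∧ (∃ p ∈ Att G x y2, ¬ G.Adj t p) ∧
      ∃ q ∈ Att G x y3, ¬ G.Adj t q := by
  obtain ⟨_, t, ht, hnt⟩ := n1
  by_cases hp : ∃ p ∈ Att G x y2, ¬ G.Adj t p
  · by_cases hq : ∃ q ∈ Att G x y3, ¬ G.Adj t q
    · exact ⟨t, ht, hnt, hp, hq⟩
    · exfalso
      push Not at hq
      obtain ⟨p, hp, hp'⟩ := hp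
      exact h7 V G hN x y1 y3 y2 t p c13 c12 (b3_conf c23) ht hq hp hp'
  · push Not at hp
    exfalso
    by_cases hq : ∃ q ∈ Att G x y3, ¬ G.Adj t q
    · obtain ⟨q, hq, hq'⟩ := hq
      exact h7 V G hN x y1 y2 y3 t q c12 c13 c23 ht hp hq hq'
    · push Not at hq
      exact h8 V G hN x y1 y2 y3 t n c12 c13 c23 ht hp hq n2 n3

private theorem b3_ccf (h4 : ST_CCF) {V : Type} {G : SimpleGraph V} {x y1 y2 y3 t1 t2 t3 : V}
    (c13 : ¬ Comp G x y1 y3) (c23 : ¬ Comp G x y2 y3) (k1 : Comp G x y1 t1) (k2 : Comp G x y2 t2)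
    (k3 : Comp G x y3 t3) (hp : ∃ p ∈ Att G x y1, ¬ G.Adj t3 p)
    (hq : ∃ q ∈ Att G x y2, ¬ G.Adj t3 q) : Comp G t3 t1 t2 := by
  obtain ⟨p, hp, hp'⟩ := hp
  obtain ⟨q, hq, hq'⟩ := hq
  exact h4 V G x t1 t2 t3 p q (fun h => c13 (b3_trans (b3_trans k1 h) (b3_symm k3)))
    (fun h => c23 (b3_trans (b3_trans k2 h) (b3_symm k3))) k3.2.1 (b3_att k1 hp) hp'
    (b3_att k2 hq) hq'

theorem st_B3 (_h1 : ST_CNB) (_h2 : ST_SEP) (h3 : ST_LKX) (h4 : ST_CCF) (_h5 : ST_CIB)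
    (h6 : ST_QB2) (h7 : ST_IIA) (h8 : ST_IIB) : ST_B3 := by
  intro V G hN hCI x y1 y2 y3 c12 c13 c23
  by_cases hn : ∃ n, n ∈ Att G x y1 ∧ n ∈ Att G x y2 ∧ n ∈ Att G x y3
  · obtain ⟨n, n1, n2, n3⟩ := hn
    obtain ⟨t1, k1, e1, p12, p13⟩ := b3_key h7 h8 hN c12 c13 c23 n1 n2 n3
    obtain ⟨t2, k2, e2, p21, p23⟩ := b3_key h7 h8 hN (b3_conf c12) c23 c13 n2 n1 n3
    obtain ⟨t3, k3, e3, p31, p32⟩ := b3_key h7 h8 hN (b3_conf c13) (b3_conf c23) c12 n3 n1 n2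
    have d12 : ¬ Comp G x y1 y2 := c12.1
    have d13 : ¬ Comp G x y1 y3 := c13.1
    have d23 : ¬ Comp G x y2 y3 := c23.1
    have d21 : ¬ Comp G x y2 y1 := fun h => d12 (b3_symm h)
    have d31 : ¬ Comp G x y3 y1 := fun h => d13 (b3_symm h)
    have d32 : ¬ Comp G x y3 y2 := fun h => d23 (b3_symm h)
    exact hCI ⟨n, t1, t2, t3, e1, e2, e3, b3_ccf h4 d13 d23 k1 k2 k3 p31 p32,
      b3_ccf h4 d21 d31 k2 k3 k1 p12 p13, b3_ccf h4 d12 d32 k1 k3 k2 p21 p23⟩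
  · obtain ⟨n12, a1, a2⟩ := b3_com c12
    obtain ⟨n31, b1, b3⟩ := b3_com c13
    obtain ⟨n23, e2, e3⟩ := b3_com c23
    have f12 : n12 ∉ Att G x y3 := fun h => hn ⟨n12, a1, a2, h⟩
    have f31 : n31 ∉ Att G x y2 := fun h => hn ⟨n31, b1, h, b3⟩
    have f23 : n23 ∉ Att G x y1 := fun h => hn ⟨n23, h, e2, e3⟩
    obtain ⟨b, Lb, b', hb⟩ := h3 V G x y2 n12 n23 a2 e2
    obtain ⟨c, Lc, c', hc⟩ := h3 V G x y3 n23 n31 e3 b3
    obtain ⟨a, La, a', ha⟩ := h3 V G x y1 n31 n12 b1 a1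
    exact h6 V G hN x y1 y2 y3 n12 n23 n31 c12.1 c13.1 c23.1 a1.1 e2.1 b1.1
      (fun h => f12 (h ▸ e3)) (fun h => f12 (h ▸ b3)) (fun h => f23 (h ▸ b1)) f31 f12 f23
      b Lb b' c Lc c' a La a' hb hc ha

end Pool.Agent.Helper64.FL
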