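import Pool.Agent.Helper64.FL.StE

/-! Full list for MP_866009_co, module DRP: dropping the first segment when its ends are adjacent. -/

set_option autoImplicit false

namespace Pool.Agent.Helper64.FL

open Pool.Agent.Helper64.CT Pool.Agent.Helper64.DT
open Pool.Agent.Helper64.HG (Ovl Model Circ IC HellyCircle ChordModel)

theorem st_DRP : ST_DRP := by
  intro V G s f L g l hM hs he
  have hmap := hM.map
  rw [hs] at hmap
  obtain ⟨p, L', hL, hp, hL'⟩ : ∃ (p : Seg × List V) (L' : List (Seg × List V)),
      L = p :: L' ∧ p.1 = g ∧ L'.map Prod.fst = l := by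
    rcases L with _ | ⟨p, L'⟩
    · simp at hmap
    · rw [List.map_cons, List.cons.injEq] at hmap
      exact ⟨p, L', rfl, hmap.1, hmap.2⟩
  subst hL
  have hd : dropS s = ⟨s.n, s.e, s.d, l⟩ := by
    unfold dropS
    rw [hs]
  have hpL : p ∈ p :: L' := List.mem_cons_self
  have hb := hM.bnd p hpL
  rw [hp] at hb
  have hadj : G.Adj (f g.u) (f g.w) :=
    (hM.adj g.u g.w (lt_of_lt_of_le hb.1 hM.n32) (lt_of_lt_of_le hb.2.1 hM.n32) he).2.2 hb.2.2
  have hpath := hM.pth p hpL
  rw [hp] at hpath
  have hnil : p.2 = [] := by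
    rcases hq : p.2 with _ | ⟨y, t⟩
    · rfl
    · exfalso
      rw [hq] at hpath
      refine hpath.2.2.1 (f g.w) ?_ hadj
      simp
  rw [hd]
  refine ⟨L', ?_, ?_⟩
  · exact {
      n32 := hM.n32
      alive := fun i hi => hi
      inj := hM.inj
      adj := hM.adj
      nad := hM.nad
      map := hL'
      bnd := fun q hq => hM.bnd q (List.mem_cons_of_mem _ hq)
      pth := fun q hq => hM.pth q (List.mem_cons_of_mem _ hq)
      dis := fun q hq => hM.dis q (List.mem_cons_of_mem _ hq)
      cln := fun q hq => hM.cln q (List.mem_cons_of_mem _ hq)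
      sep := (List.pairwise_cons.1 hM.sep).2 }
  · intro hC x
    rcases hC x with h | ⟨q, hq, hx⟩
    · exact Or.inl h
    · rcases List.mem_cons.1 hq with h | h
      · rw [h, hnil] at hx
        exact absurd hx List.not_mem_nil
      · exact Or.inr ⟨q, h, hx⟩

end Pool.Agent.Helper64.FL
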