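import Pool.Agent.Helper64.FL.StH

/-! Module F1A of the full list for MP_866009_co: three ends of gaps in one clique. -/

set_option autoImplicit false

namespace Pool.Agent.Helper64.FL

open Pool.Agent.Helper64.CT Pool.Agent.Helper64.DT
open Pool.Agent.Helper64.HG (Ovl Model Circ IC HellyCircle ChordModel)

section F1A

variable {V : Type} {G : SimpleGraph V} {x : V} {k : ℕ} {n : ℕ → V} {P : ℕ → List V}

private theorem f1a_tr (h : DF G) {a b c : V} (ha : G.Adj x a) (hb : G.Adj x b) (hc : G.Adj x c)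
    (hab : G.Adj a b) (hbc : G.Adj b c) (hac : a ≠ c) : G.Adj a c :=
  h x b a c hb ha hab.symm hc hbc hac

private theorem f1a_path : ∀ (L : List V) (T : Set V) (a w : V), IPt G L → L.head? = some a →
    L.getLast? = some w → (∀ u ∈ L, u ∈ T) → Cn G T a w
  | [], _, _, _, _, h, _, _ => by simp at h
  | [b], T, a, w, _, h, h', hT => by
    simp only [List.head?_cons, Option.some.injEq] at h
    simp only [List.getLast?_singleton, Option.some.injEq] at h'
    subst h
    subst h'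
    exact ⟨hT _ (by simp), Relation.ReflTransGen.refl⟩
  | b :: c :: l, T, a, w, hI, h, h', hT => by
    simp only [List.head?_cons, Option.some.injEq] at h
    subst h
    have h1 : G.Adj b c := hI.2.1 c (by simp)
    have h2 : Cn G T c w := f1a_path (c :: l) T c w hI.2.2.2 rfl
      (by rw [← h', List.getLast?_cons_cons]) (fun u hu => hT u (List.mem_cons_of_mem _ hu))
    exact ⟨hT b (by simp), Relation.ReflTransGen.head ⟨h1, h2.1⟩ h2.2⟩

private theorem f1a_xn (hN : Neck G x k n P) (i : ℕ) : G.Adj x (n i) :=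
  (hN.arc i).xn i le_rfl (by have := hN.k5; omega)

private theorem f1a_ne (hN : Neck G x k n P) {i j : ℕ} (h : i < j) (h' : j < i + k) : n i ≠ n j :=
  (hN.arc i).inj i j le_rfl h (by omega)

private theorem f1a_far (hN : Neck G x k n P) {i : ℕ} {u : V} (hu : u ∈ P i) : u ∈ Far G x :=
  (hN.arc i).far i le_rfl (by have := hN.k5; omega) u hu

private theorem f1a_c1 (hN : Neck G x k n P) {i j : ℕ} (h : i + 1 < j) (h' : j < i + k) {u : V}
    (hu : u ∈ P i) : ¬ G.Adj (n j) u :=
  (hN.arc i).cln i j le_rfl (by omega) (by omega) (by omega) (by omega) (by omega) u hu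

private theorem f1a_c2 (hN : Neck G x k n P) {i j : ℕ} (h : j < i) (h' : i + 1 < j + k) {u : V}
    (hu : u ∈ P i) : ¬ G.Adj (n j) u :=
  (hN.arc j).cln i j (by omega) (by omega) le_rfl (by omega) (by omega) (by omega) u hu

private theorem f1a_sep (hN : Neck G x k n P) {i j : ℕ} (h : i < j) (h' : j < i + k) {u w : V}
    (hu : u ∈ P i) (hw : w ∈ P j) : u ≠ w := by
  have h5 := hN.k5
  rcases Nat.lt_or_ge j (i + k - 1) with h1 | h1
  · exact ((hN.arc i).sep i j le_rfl h (by omega) u hu w hw).1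
  · rw [← hN.pP i] at hu
    exact ((hN.arc j).sep j (i + k) le_rfl (by omega) (by omega) w hw u hu).1.symm

/-- the data at the end `n p` of a gap -/
private theorem f1a_end (h2 : ST_CNB) (hN : Neck G x k n P) (p Q q : ℕ)
    (h : (Q = p ∧ q = p + 1) ∨ (Q + 1 = p ∧ q = Q)) :
    ∃ l ∈ P Q, G.Adj (n p) l ∧ ∀ T : Set V, (∀ u ∈ P Q, u ∈ T) → n q ∈ T → Cn G T l (n q) := by
  obtain ⟨c1, c2, _, c4, _, _, _⟩ := h2 V G
  have h5 := hN.k5
  have A := hN.arc Q
  have hne := A.ne Q le_rfl (by omega)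
  have hip := A.ip Q le_rfl (by omega)
  have hf := A.fst Q le_rfl (by omega)
  have hl := A.lst Q le_rfl (by omega)
  obtain ⟨a, ha⟩ : ∃ a, (P Q).head? = some a := by
    rcases hP : P Q with _ | ⟨a, L⟩
    · exact absurd hP hne
    · exact ⟨a, rfl⟩
  obtain ⟨w, hw⟩ : ∃ w, (P Q).getLast? = some w :=
    ⟨(P Q).getLast hne, List.getLast?_eq_getLast_of_ne_nil hne⟩
  have haP : a ∈ P Q := List.mem_of_mem_head? ha
  have hwP : w ∈ P Q := List.mem_of_getLast? hw
  have hna : G.Adj (n Q) a := (hf a haP).2 ha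
  have hnw : G.Adj (n (Q + 1)) w := (hl w hwP).2 hw
  rcases h with ⟨rfl, rfl⟩ | ⟨rfl, rfl⟩
  · refine ⟨a, haP, hna, ?_⟩
    intro T hT hq
    exact c2 T _ _ _ (f1a_path _ T a w hip ha hw hT) (c4 T _ _ (hT w hwP) hq hnw.symm)
  · refine ⟨w, hwP, hnw, ?_⟩
    intro T hT hq
    exact c2 T _ _ _ (c1 T _ _ (f1a_path _ T a w hip ha hw hT)).2
      (c4 T _ _ (hT a haP) hq hna.symm)

private theorem f1a_key (h1 : ST_F1X) (h2 : ST_CNB) (hR : Red G) (hN : Neck G x k n P)
    (p Q q : ℕ → ℕ) (z : V) (hz : z ∈ Far G x)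
    (hend : ∀ i < 3, (Q i = p i ∧ q i = p i + 1) ∨ (Q i + 1 = p i ∧ q i = Q i))
    (hadj : ∀ i < 3, ∀ j < 3, i ≠ j → G.Adj (n (p i)) (n (p j)))
    (hcl : ∀ i < 3, ∀ j < 3, i ≠ j → ∀ u ∈ P (Q i), ¬ G.Adj (n (p j)) u)
    (hq : ∀ i < 3, ∀ j < 3, n (q i) ∈ Far G (n (p j)))
    (hzP : ∀ i < 3, ∀ u ∈ P (Q i), u ≠ z) : False := by
  have hex : ∀ i, ∃ l, i < 3 → l ∈ P (Q i) ∧ G.Adj (n (p i)) l ∧
      ∀ T : Set V, (∀ u ∈ P (Q i), u ∈ T) → n (q i) ∈ T → Cn G T l (n (q i)) := by
    intro i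
    by_cases hi : i < 3
    · obtain ⟨l, a1, a2, a3⟩ := f1a_end h2 hN (p i) (Q i) (q i) (hend i hi)
      exact ⟨l, fun _ => ⟨a1, a2, a3⟩⟩
    · exact ⟨x, fun h => absurd h hi⟩
  choose l hl using hex
  have hnz : ∀ i, n i ≠ z := by
    intro i h
    exact hz.2 (h ▸ f1a_xn hN i)
  have hfn : ∀ i j u, u ∈ P i → u ≠ n j := by
    intro i j u hu h
    exact (f1a_far hN hu).2 (h ▸ f1a_xn hN j)
  refine h1 V G {v | v ≠ z} x (fun i => n (p i)) l (fun i => n (q i)) hz.1.symm ?_ ?_ ?_ ?_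
    (hR.naj z)
  · intro i hi
    obtain ⟨a1, a2, _⟩ := hl i hi
    exact ⟨hnz _, f1a_xn hN _, hzP i hi _ a1, f1a_far hN a1, a2, hnz _, f1a_xn hN _⟩
  · intro i hi j hj hij
    obtain ⟨a1, a2, _⟩ := hl i hi
    exact ⟨hadj i hi j hj hij, hfn _ _ _ a1, hcl i hi j hj hij _ a1⟩
  · exact hq
  · intro i hi j hj hij
    obtain ⟨a1, a2, a3⟩ := hl i hi
    refine a3 _ ?_ ⟨hnz _, hq i hi j hj⟩
    intro u hu
    exact ⟨hzP i hi u hu, hfn _ _ _ hu, hcl i hi j hj hij u hu⟩

private theorem f1a_qf (hR : Red G) (hN : Neck G x k n P) {i q : ℕ} (hne : n q ≠ n i)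
    (hna : ¬ G.Adj (n i) (n q)) (p : ℕ) (hp : n p = n i ∨ G.Adj (n i) (n p)) :
    n q ∈ Far G (n p) := by
  rcases hp with hp | hp
  · rw [hp]
    exact ⟨hne, hna⟩
  · constructor
    · intro h
      exact hna (h ▸ hp)
    · intro h
      exact hna (f1a_tr hR.df (f1a_xn hN i) (f1a_xn hN p) (f1a_xn hN q) hp h hne.symm)

private theorem f1a_three {R : ℕ → ℕ → Prop} (h0 : R 0 0) (h1 : R 0 1) (h2 : R 0 2) (h3 : R 1 0)
    (h4 : R 1 1) (h5 : R 1 2) (h6 : R 2 0) (h7 : R 2 1) (h8 : R 2 2) :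
    ∀ i < 3, ∀ j < 3, R i j := by
  intro i hi j hj
  interval_cases i <;> interval_cases j <;> assumption

/-- the function with values `a`, `b`, `c` -/
private def f1a_f (a b c : ℕ) : ℕ → ℕ
  | 0 => a
  | 1 => b
  | _ => c

end F1A

theorem st_F1A (h1 : ST_F1X) (h2 : ST_CNB) : ST_F1A := by
  intro V G x k n P hR hN i j i' j' hij hji hij' hjk hnot hE hE' hEE hg hg'
  have h5 := hN.k5
  have Eij : G.Adj (n i) (n j) := by
    rcases hE with h | h
    · exact absurd h (f1a_ne hN (by omega) (by omega))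
    · exact h
  rcases Nat.lt_or_ge j i' with hc | hc
  · -- ends `n i`, `n j`, `n i'`
    have Eii : G.Adj (n i) (n i') := by
      rcases hEE with h | h
      · exact absurd h (f1a_ne hN (by omega) (by omega))
      · exact h
    have Eji : G.Adj (n j) (n i') :=
      f1a_tr hR.df (f1a_xn hN j) (f1a_xn hN i) (f1a_xn hN i') Eij.symm Eii
        (f1a_ne hN (by omega) (by omega))
    obtain ⟨z, hzP⟩ : ∃ z, z ∈ P j :=
      List.exists_mem_of_ne_nil _ ((hN.arc j).ne j le_rfl (by omega))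
    have q0 : n (i + 1) ≠ n i := (f1a_ne hN (by omega) (by omega)).symm
    have q1 : n (j - 1) ≠ n i := (f1a_ne hN (by omega) (by omega)).symm
    have q2 : n (i' + 1) ≠ n i' := (f1a_ne hN (by omega) (by omega)).symm
    have r0 : ¬ G.Adj (n i) (n (i + 1)) := hg _ (by omega) (by omega)
    have r1 : ¬ G.Adj (n i) (n (j - 1)) := hg _ (by omega) (by omega)
    have r2 : ¬ G.Adj (n i') (n (i' + 1)) := hg' _ (by omega) (by omega)
    refine f1a_key h1 h2 hR hN (f1a_f i j i') (f1a_f i (j - 1) i') (f1a_f (i + 1) (j - 1) (i' + 1))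
      z (f1a_far hN hzP) ?_ ?_ ?_ ?_ ?_
    · intro s hs
      interval_cases s
      · exact Or.inl ⟨rfl, rfl⟩
      · exact Or.inr ⟨Nat.sub_add_cancel (by omega), rfl⟩
      · exact Or.inl ⟨rfl, rfl⟩
    · refine f1a_three (fun h => absurd rfl h) (fun _ => Eij) (fun _ => Eii) (fun _ => Eij.symm)
        (fun h => absurd rfl h) (fun _ => Eji) (fun _ => Eii.symm) (fun _ => Eji.symm)
        (fun h => absurd rfl h)
    · refine f1a_three (fun h => absurd rfl h)
        (fun _ u hu => f1a_c1 (i := i) (j := j) hN (by omega) (by omega) hu)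
        (fun _ u hu => f1a_c1 (i := i) (j := i') hN (by omega) (by omega) hu)
        (fun _ u hu => f1a_c2 (i := j - 1) (j := i) hN (by omega) (by omega) hu)
        (fun h => absurd rfl h)
        (fun _ u hu => f1a_c1 (i := j - 1) (j := i') hN (by omega) (by omega) hu)
        (fun _ u hu => f1a_c2 (i := i') (j := i) hN (by omega) (by omega) hu)
        (fun _ u hu => f1a_c2 (i := i') (j := j) hN (by omega) (by omega) hu)
        (fun h => absurd rfl h)
    · have t0 := fun p hp => f1a_qf hR hN q0 r0 p hp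
      have t1 := fun p hp => f1a_qf hR hN q1 r1 p hp
      have t2 := fun p hp => f1a_qf hR hN q2 r2 p hp
      exact f1a_three (t0 i (Or.inl rfl)) (t0 j (Or.inr Eij)) (t0 i' (Or.inr Eii))
        (t1 i (Or.inl rfl)) (t1 j (Or.inr Eij)) (t1 i' (Or.inr Eii))
        (t2 i (Or.inr Eii.symm)) (t2 j (Or.inr Eji.symm)) (t2 i' (Or.inl rfl))
    · intro s hs u hu
      interval_cases s
      · exact f1a_sep hN (i := i) (j := j) (by omega) (by omega) hu hzP
      · exact f1a_sep hN (i := j - 1) (j := j) (by omega) (by omega) hu hzP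
      · exact (f1a_sep hN (i := j) (j := i') (by omega) (by omega) hzP hu).symm
  · -- ends `n i`, `n j`, `n j'`
    have hji' : i' = j := by omega
    subst hji'
    have hjk' : j' < i + k := by
      rcases Nat.lt_or_ge j' (i + k) with h | h
      · exact h
      · exact absurd ⟨rfl, by omega⟩ hnot
    have Ejj : G.Adj (n i') (n j') := by
      rcases hE' with h | h
      · exact absurd h (f1a_ne hN (by omega) (by omega))
      · exact h
    have Eij' : G.Adj (n i) (n j') :=
      f1a_tr hR.df (f1a_xn hN i) (f1a_xn hN i') (f1a_xn hN j') Eij Ejj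
        (f1a_ne hN (by omega) (by omega))
    obtain ⟨z, hzP⟩ : ∃ z, z ∈ P j' :=
      List.exists_mem_of_ne_nil _ ((hN.arc j').ne j' le_rfl (by omega))
    have q0 : n (i + 1) ≠ n i := (f1a_ne hN (by omega) (by omega)).symm
    have q1 : n (i' - 1) ≠ n i := (f1a_ne hN (by omega) (by omega)).symm
    have q2 : n (j' - 1) ≠ n i' := (f1a_ne hN (by omega) (by omega)).symm
    have r0 : ¬ G.Adj (n i) (n (i + 1)) := hg _ (by omega) (by omega)
    have r1 : ¬ G.Adj (n i) (n (i' - 1)) := hg _ (by omega) (by omega)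
    have r2 : ¬ G.Adj (n i') (n (j' - 1)) := hg' _ (by omega) (by omega)
    refine f1a_key h1 h2 hR hN (f1a_f i i' j') (f1a_f i (i' - 1) (j' - 1))
      (f1a_f (i + 1) (i' - 1) (j' - 1)) z (f1a_far hN hzP) ?_ ?_ ?_ ?_ ?_
    · intro s hs
      interval_cases s
      · exact Or.inl ⟨rfl, rfl⟩
      · exact Or.inr ⟨Nat.sub_add_cancel (by omega), rfl⟩
      · exact Or.inr ⟨Nat.sub_add_cancel (by omega), rfl⟩
    · refine f1a_three (fun h => absurd rfl h) (fun _ => Eij) (fun _ => Eij') (fun _ => Eij.symm)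
        (fun h => absurd rfl h) (fun _ => Ejj) (fun _ => Eij'.symm) (fun _ => Ejj.symm)
        (fun h => absurd rfl h)
    · refine f1a_three (fun h => absurd rfl h)
        (fun _ u hu => f1a_c1 (i := i) (j := i') hN (by omega) (by omega) hu)
        (fun _ u hu => f1a_c1 (i := i) (j := j') hN (by omega) (by omega) hu)
        (fun _ u hu => f1a_c2 (i := i' - 1) (j := i) hN (by omega) (by omega) hu)
        (fun h => absurd rfl h)
        (fun _ u hu => f1a_c1 (i := i' - 1) (j := j') hN (by omega) (by omega) hu)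
        (fun _ u hu => f1a_c2 (i := j' - 1) (j := i) hN (by omega) (by omega) hu)
        (fun _ u hu => f1a_c2 (i := j' - 1) (j := i') hN (by omega) (by omega) hu)
        (fun h => absurd rfl h)
    · have t0 := fun p hp => f1a_qf hR hN q0 r0 p hp
      have t1 := fun p hp => f1a_qf hR hN q1 r1 p hp
      have t2 := fun p hp => f1a_qf hR hN q2 r2 p hp
      exact f1a_three (t0 i (Or.inl rfl)) (t0 i' (Or.inr Eij)) (t0 j' (Or.inr Eij'))
        (t1 i (Or.inl rfl)) (t1 i' (Or.inr Eij)) (t1 j' (Or.inr Eij'))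
        (t2 i (Or.inr Eij.symm)) (t2 i' (Or.inl rfl)) (t2 j' (Or.inr Ejj))
    · intro s hs u hu
      interval_cases s
      · exact f1a_sep hN (i := i) (j := j') (by omega) (by omega) hu hzP
      · exact f1a_sep hN (i := i' - 1) (j := j') (by omega) (by omega) hu hzP
      · exact f1a_sep hN (i := j' - 1) (j := j') (by omega) (by omega) hu hzP

end Pool.Agent.Helper64.FL
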